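import Pool.Agent.H60.CM.Basic

/-!
Stable cmc surfaces (MP_d9d403_gt), row CMP: the comparison with the barrier.
-/

set_option autoImplicit false

open Set Function MeasureTheory Filter Topology
open scoped Manifold ContDiff Matrix
open Pool.Agent.H60.CM

namespace Pool.Agent.H38.CM

theorem two_le : (2 : WithTop ℕ∞) ≤ ∞ :=
  WithTop.coe_le_coe.2 (le_top : (2 : ℕ∞) ≤ (⊤ : ℕ∞))

theorem pd_smooth {O : Set E2} (hO : IsOpen O) {f : E2 → ℝ} (hf : ContDiffOn ℝ ∞ f O)
    (i : Fin 2) : ContDiffOn ℝ ∞ (fun z => pd f z i) O := by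
  have h1 : ContDiffOn ℝ ∞ (fderiv ℝ f) O := hf.fderiv_of_isOpen hO (by simp)
  exact h1.clm_apply contDiffOn_const

theorem diffAt {O : Set E2} (hO : IsOpen O) {f : E2 → ℝ} (hf : ContDiffOn ℝ ∞ f O) {y : E2}
    (hy : y ∈ O) : DifferentiableAt ℝ f y :=
  (hf.contDiffAt (hO.mem_nhds hy)).differentiableAt (by simp)

theorem pd_add {f g : E2 → ℝ} {y : E2} (hf : DifferentiableAt ℝ f y)
    (hg : DifferentiableAt ℝ g y) (i : Fin 2) :
    pd (fun z => f z + g z) y i = pd f y i + pd g y i := by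
  have h := (hf.hasFDerivAt.add hg.hasFDerivAt).fderiv
  unfold pd
  have e : (fun z => f z + g z) = f + g := rfl
  rw [e, h]
  rfl

theorem pd_sub {f g : E2 → ℝ} {y : E2} (hf : DifferentiableAt ℝ f y)
    (hg : DifferentiableAt ℝ g y) (i : Fin 2) :
    pd (fun z => f z - g z) y i = pd f y i - pd g y i := by
  have h := (hf.hasFDerivAt.sub hg.hasFDerivAt).fderiv
  unfold pd
  have e : (fun z => f z - g z) = f - g := rfl
  rw [e, h]
  rfl

theorem pd_mul {f g : E2 → ℝ} {y : E2} (hf : DifferentiableAt ℝ f y)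
    (hg : DifferentiableAt ℝ g y) (i : Fin 2) :
    pd (fun z => f z * g z) y i = f y * pd g y i + pd f y i * g y := by
  have h := (hf.hasFDerivAt.mul hg.hasFDerivAt).fderiv
  unfold pd
  have e : (fun z => f z * g z) = f * g := rfl
  rw [e, h]
  change f y * _ + g y * _ = _
  rw [mul_comm (g y)]
  rfl

theorem pd_sym {O : Set E2} (hO : IsOpen O) {f : E2 → ℝ} (hf : ContDiffOn ℝ ∞ f O) {y : E2}
    (hy : y ∈ O) (i j : Fin 2) :
    pd (fun z => pd f z i) y j = pd (fun z => pd f z j) y i := by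
  have hd : ContDiffAt ℝ ∞ f y := hf.contDiffAt (hO.mem_nhds hy)
  have h1 : ContDiffOn ℝ ∞ (fderiv ℝ f) O := hf.fderiv_of_isOpen hO (by simp)
  have h2 : DifferentiableAt ℝ (fderiv ℝ f) y :=
    (h1.contDiffAt (hO.mem_nhds hy)).differentiableAt (by simp)
  have key : ∀ i j : Fin 2, pd (fun z => pd f z i) y j =
      fderiv ℝ (fderiv ℝ f) y (ee j) (ee i) := by
    intro i j
    unfold pd
    rw [fderiv_clm_apply h2 (differentiableAt_const _)]
    simp
  rw [key, key]
  have hs : IsSymmSndFDerivAt ℝ f y := hd.isSymmSndFDerivAt (by simpa using two_le)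
  exact hs _ _

theorem Lab_eq {O : Set E2} {a b c : E2 → ℝ} (hE : Ell O a b c) {f : E2 → ℝ}
    (hf : ContDiffOn ℝ ∞ f O) {y : E2} (hy : y ∈ O) :
    Lab a b c f y = a y * pd (fun z => pd f z 0) y 0 + pd a y 0 * pd f y 0 +
      (b y * pd (fun z => pd f z 1) y 0 + pd b y 0 * pd f y 1) +
      (b y * pd (fun z => pd f z 1) y 0 + pd b y 1 * pd f y 0 +
      (c y * pd (fun z => pd f z 1) y 1 + pd c y 1 * pd f y 1)) := by
  have da := diffAt hE.isOpen hE.sa hy
  have db := diffAt hE.isOpen hE.sb hy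
  have dc := diffAt hE.isOpen hE.sc hy
  have d0 := diffAt hE.isOpen (pd_smooth hE.isOpen hf 0) hy
  have d1 := diffAt hE.isOpen (pd_smooth hE.isOpen hf 1) hy
  unfold Lab
  rw [pd_add (f := fun z => a z * pd f z 0) (g := fun z => b z * pd f z 1) (da.mul d0)
    (db.mul d1), pd_add (f := fun z => b z * pd f z 0) (g := fun z => c z * pd f z 1)
    (db.mul d0) (dc.mul d1), pd_mul da d0, pd_mul db d1, pd_mul db d0, pd_mul dc d1,
    pd_sym hE.isOpen hf hy 0 1]

theorem pf_CMP (h1 : T_HES) : T_CMP := by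
  intro O a b c hE o R hR hB φ w hφ hw hs1 hs2 hL y hy1 hy2
  have hO := hE.isOpen
  by_contra hcon
  have hneg : φ y - w y < 0 := by linarith [not_le.1 hcon]
  have hKO : ∀ z : E2, dist z o ≤ R → z ∈ O := fun z hz => hB (Metric.mem_closedBall.2 hz)
  let K : Set E2 := {z | R / 2 ≤ dist z o ∧ dist z o ≤ R}
  have hKc : IsCompact K := by
    refine (isCompact_closedBall o R).of_isClosed_subset ?_ fun z hz =>
      Metric.mem_closedBall.2 hz.2
    exact (isClosed_le continuous_const (continuous_id.dist continuous_const)).inter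
      (isClosed_le (continuous_id.dist continuous_const) continuous_const)
  have hk : ContinuousOn (fun z => φ z - w z) K := by
    intro z hz
    exact ((diffAt hO hφ (hKO z hz.2)).continuousAt.sub
      (diffAt hO hw (hKO z hz.2)).continuousAt).continuousWithinAt
  obtain ⟨q, hq, hmin⟩ := hKc.exists_isMinOn ⟨y, hy1, hy2⟩ hk
  have hqy : φ q - w q ≤ φ y - w y := hmin (show y ∈ K from ⟨hy1, hy2⟩)
  have hq1 : R / 2 < dist q o := by
    rcases lt_or_eq_of_le hq.1 with h | h
    · exact h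
    · have := hs1 q h.symm
      linarith
  have hq2 : dist q o < R := by
    rcases lt_or_eq_of_le hq.2 with h | h
    · exact h
    · have := hs2 q h
      linarith
  have hqO : q ∈ O := hKO q hq.2
  have hloc : IsLocalMin (fun z => φ z - w z) q := by
    have hop : {z : E2 | R / 2 < dist z o ∧ dist z o < R} ∈ 𝓝 q := by
      refine IsOpen.mem_nhds ?_ ⟨hq1, hq2⟩
      exact (isOpen_lt continuous_const (continuous_id.dist continuous_const)).inter
        (isOpen_lt (continuous_id.dist continuous_const) continuous_const)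
    filter_upwards [hop] with z hz
    exact hmin (show z ∈ K from ⟨hz.1.le, hz.2.le⟩)
  have hkS : ContDiffOn ℝ ∞ (fun z => φ z - w z) O := hφ.sub hw
  have hkA : ContDiffAt ℝ 2 (fun z => φ z - w z) q :=
    (hkS.contDiffAt (hO.mem_nhds hqO)).of_le two_le
  obtain ⟨hz, hin⟩ := h1 (fun z => φ z - w z) q hkA hloc
  have hin2 := hin (a q) (b q) (c q) (hE.pa q hqO) (hE.det q hqO)
  have hpd : ∀ z ∈ O, ∀ i, pd (fun z => φ z - w z) z i = pd φ z i - pd w z i := fun z hz i =>
    pd_sub (diffAt hO hφ hz) (diffAt hO hw hz) i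
  have hpd2 : ∀ i j, pd (fun z => pd (fun z => φ z - w z) z i) q j =
      pd (fun z => pd φ z i) q j - pd (fun z => pd w z i) q j := by
    intro i j
    have e : (fun z => pd (fun z => φ z - w z) z i) =ᶠ[𝓝 q] fun z => pd φ z i - pd w z i := by
      filter_upwards [hO.mem_nhds hqO] with z hz
      exact hpd z hz i
    have e2 : pd (fun z => pd (fun z => φ z - w z) z i) q j =
        pd (fun z => pd φ z i - pd w z i) q j := by
      unfold pd at e ⊢
      rw [e.fderiv_eq]
    rw [e2]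
    exact pd_sub (diffAt hO (pd_smooth hO hφ i) hqO) (diffAt hO (pd_smooth hO hw i) hqO) j
  rw [hpd2, hpd2, hpd2] at hin2
  have hz0 : pd φ q 0 = pd w q 0 := by
    have := hz 0
    rw [hpd q hqO] at this
    linarith
  have hz1 : pd φ q 1 = pd w q 1 := by
    have := hz 1
    rw [hpd q hqO] at this
    linarith
  obtain ⟨l1, l2⟩ := hL q hq1 hq2
  rw [Lab_eq hE hφ hqO, hz0, hz1] at l1
  rw [Lab_eq hE hw hqO] at l2
  linarith

end Pool.Agent.H38.CM
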