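import Pool.Agent.H88.CM.Targets
import Pool.Agent.H35.CL.NUM

/-! Closing lemma on compact manifolds, row NUMM: the numerical conditions of the scales. -/

set_option autoImplicit false

open Pool.Agent.H88.CL Pool.Agent.H88.CM Set Function Topology Metric Filter
open Pool.Agent.H35.CL (ev_le ev_div)

namespace Pool.Agent.H38.CM

theorem pf_NUMM (h1 : Pool.Agent.H88.CL.T_SCL) (h2 : Pool.Agent.H88.CL.T_OMB) : T_NUMM := by
  intro ω hω L C δ e t c0 hL hC hδ he ht ht1 hc0
  obtain ⟨s, hs, hmono, hsM⟩ := h1 ω hω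
  obtain ⟨r0, hr0, hom⟩ := h2 ω hω (1 / e)
  have hL0 : 0 < L := by linarith
  have hC0 : 0 < C := by linarith
  have e1 := ev_le s hs (32 / δ) (2 * L ^ 2) 1 (by positivity) one_pos
  have e2 := ev_le s hs 1700 (L ^ 15) 1 (by positivity) one_pos
  have e2' := ev_le s hs (40 / δ) (L ^ 3) 1 (by positivity) one_pos
  have e3 := ev_le s hs 51 (L ^ 6) (2 / 3) (by positivity) (by norm_num)
  have e4 := ev_le s hs (1 / c0) (1 / t) (1 / 3) (by positivity) (by norm_num)
  have e5 := ev_div C (1 / 2) (by norm_num)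
  have e6 := ev_le s hs (2 * C / e) (L ^ 3) 1 (by positivity) one_pos
  have e6' := ev_div C (e / 2) (by positivity)
  have e7 := ev_le s hs (C / r0) (L ^ 3) 1 (by positivity) one_pos
  have e8 := ev_le s hs 2 (L ^ 3) 1 (by positivity) one_pos
  obtain ⟨N8, hN8⟩ := hsM (C / e)
  have e8' : ∀ᶠ N : ℕ in atTop, C / e / N ≤ ω (Real.exp (-(2 * s (N + 1)))) :=
    eventually_atTop.mpr ⟨N8, hN8⟩
  have hall := (((((((((((eventually_ge_atTop (1 : ℕ)).and e1).and e2).and e2').and e3).and
    e4).and e5).and e6).and e6').and e7).and e8).and e8'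
  obtain ⟨N0, hN0⟩ := eventually_atTop.mp hall
  refine ⟨s, max 1 N0, le_max_left _ _, ?_, ?_⟩
  · intro ε hε
    obtain ⟨N1, hN1⟩ := eventually_atTop.mp (ev_le s hs (2 / ε) 1 1 one_pos one_pos)
    refine ⟨N1, fun N hN => ?_⟩
    have h := hN1 N hN
    rw [one_pow, mul_one, one_mul, div_mul_eq_mul_div, div_le_one hε] at h
    linarith
  · intro N hN
    obtain ⟨⟨⟨⟨⟨⟨⟨⟨⟨⟨⟨k0, k1⟩, k2⟩, k2'⟩, k3⟩, k4⟩, k5⟩, k6⟩, k6'⟩, k7⟩, k8⟩, k8'⟩ :=
      hN0 N (le_trans (le_max_right _ _) hN)
    have hNp : (0 : ℝ) < N := by exact_mod_cast k0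
    rw [one_mul] at k1 k2 k2' k6 k7 k8
    have hEp : 0 < Real.exp (-s N) := Real.exp_pos _
    have p2 : L ^ (2 * N) = (L ^ 2) ^ N := pow_mul L 2 N
    have p15 : L ^ (15 * N) = (L ^ 15) ^ N := pow_mul L 15 N
    have p6 : L ^ (6 * N) = (L ^ 6) ^ N := pow_mul L 6 N
    have p3 : L ^ (3 * N) = (L ^ 3) ^ N := pow_mul L 3 N
    have hσ0 : 0 < C * L ^ (3 * N) * Real.exp (-s N) := by positivity
    refine ⟨?_, ?_, ?_, ?_, ?_, ?_⟩
    · rw [p2, le_div_iff₀ (by positivity)]
      rw [mul_pow, div_mul_eq_mul_div, div_mul_eq_mul_div, div_le_one hδ] at k1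
      calc 16 * (L ^ 2) ^ N * Real.exp (-s N) * 2 ^ (N + 1)
          = 32 * (2 ^ N * (L ^ 2) ^ N) * Real.exp (-s N) := by ring
        _ ≤ δ := k1
    · rw [p15]
      exact k2
    · rw [p3]
      rw [div_mul_eq_mul_div, div_mul_eq_mul_div, div_le_one hδ] at k2'
      nlinarith
    · have hx : Real.exp (-s N) = Real.exp (-(2 / 3 * s N)) * Real.exp (-(s N / 3)) := by
        rw [← Real.exp_add]
        congr 1
        ring
      rw [p6, hx]
      have h := mul_le_mul_of_nonneg_right k3 (Real.exp_pos (-(s N / 3))).le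
      calc 51 * (L ^ 6) ^ N * (Real.exp (-(2 / 3 * s N)) * Real.exp (-(s N / 3)))
          = 51 * (L ^ 6) ^ N * Real.exp (-(2 / 3 * s N)) * Real.exp (-(s N / 3)) := by ring
        _ ≤ 1 * Real.exp (-(s N / 3)) := h
        _ = Real.exp (-(s N / 3)) := one_mul _
    · have hx : -(1 / 3 * s N) = -(s N / 3) := by ring
      rw [hx, one_div_pow] at k4
      have htN : 0 < t ^ N := by positivity
      have h := mul_le_mul_of_nonneg_left k4 (by positivity : (0 : ℝ) ≤ c0 * t ^ N)
      have h' : c0 * t ^ N * (1 / c0 * (1 / t ^ N) * Real.exp (-(s N / 3))) =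
          Real.exp (-(s N / 3)) := by
        field_simp
      rw [h', mul_one] at h
      exact h
    · intro D' hD hD1 hDe
      have hLN : 1 ≤ L ^ N := one_le_pow₀ (by linarith)
      have hσe : C * L ^ (3 * N) * Real.exp (-s N) ≤ e / 2 := by
        rw [p3]
        rw [div_mul_eq_mul_div, div_mul_eq_mul_div, div_le_one he] at k6
        linarith
      have hσr : C * L ^ (3 * N) * Real.exp (-s N) ≤ r0 := by
        rw [p3]
        rw [div_mul_eq_mul_div, div_mul_eq_mul_div, div_le_one hr0] at k7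
        exact k7
      have hse : Real.exp (-s (N + 1)) ≤ Real.exp (-s N) := by
        apply Real.exp_le_exp.mpr
        have := hmono (Nat.le_succ N)
        simp only [Nat.succ_eq_add_one] at this
        linarith
      have he0 : 0 < Real.exp (-s (N + 1)) := Real.exp_pos _
      have hexp : Real.exp (-(2 * s (N + 1))) = Real.exp (-s (N + 1)) * Real.exp (-s (N + 1)) := by
        rw [← Real.exp_add]
        congr 1
        ring
      have hL3 : 2 * (L ^ (3 * N) * Real.exp (-s (N + 1))) ≤ 1 := by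
        have h := mul_le_mul_of_nonneg_left hse (by positivity : (0 : ℝ) ≤ (L ^ 3) ^ N)
        rw [p3]
        linarith
      have hkey : Real.exp (-(2 * s (N + 1))) * (D' + L ^ N) ≤ D' := by
        rw [hexp]
        have a1 : D' + L ^ N ≤ 2 * L ^ N := by linarith
        calc Real.exp (-s (N + 1)) * Real.exp (-s (N + 1)) * (D' + L ^ N)
            ≤ Real.exp (-s (N + 1)) * Real.exp (-s (N + 1)) * (2 * L ^ N) :=
              mul_le_mul_of_nonneg_left a1 (by positivity)
          _ = Real.exp (-s (N + 1)) * (2 * L ^ N * Real.exp (-s (N + 1))) := by ring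
          _ ≤ L ^ (2 * N) * D' * (2 * L ^ N * Real.exp (-s (N + 1))) :=
              mul_le_mul_of_nonneg_right hDe (by positivity)
          _ = 2 * (L ^ (3 * N) * Real.exp (-s (N + 1))) * D' := by
              have : L ^ (3 * N) = L ^ (2 * N) * L ^ N := by
                rw [← pow_add]
                congr 1
                ring
              rw [this]
              ring
          _ ≤ 1 * D' := mul_le_mul_of_nonneg_right hL3 hD.le
          _ = D' := one_mul _
      have harg : C / N / (C / N + C * L ^ N / (N * D')) = D' / (D' + L ^ N) := by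
        field_simp
      have hle : Real.exp (-(2 * s (N + 1))) ≤ C / N / (C / N + C * L ^ N / (N * D')) := by
        rw [harg, le_div_iff₀ (by positivity)]
        exact hkey
      have hm := hω.mono _ _ (Real.exp_pos _) hle
      refine ⟨hσ0, by positivity, by positivity, k5, by linarith, ?_, ?_⟩
      · have h8 := hom _ hσ0 hσr
        have h9 := mul_le_mul_of_nonneg_left h8 he.le
        refine le_trans (le_of_eq ?_) h9
        field_simp
      · have h9 := mul_le_mul_of_nonneg_left (k8'.trans hm) he.le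
        refine le_trans (le_of_eq ?_) h9
        field_simp

end Pool.Agent.H38.CM
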