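import Pool.Agent.H60.CM.Basic

/-!
Stable cmc surfaces (MP_d9d403_gt), row USP: the spherical case.
-/

set_option autoImplicit false

open Set Function MeasureTheory Filter Topology
open scoped Manifold ContDiff Matrix
open Pool.Agent.H60.CM

namespace Pool.Agent.H38.CM

theorem dot_self3 (y : V3) : y ⬝ᵥ y = y 0 ^ 2 + y 1 ^ 2 + y 2 ^ 2 := by
  rw [Matrix.vec3_dotProduct]
  ring

theorem eq_of_sphere {c ρ : ℝ} {y : V3} :
    y ∈ Ysp c ρ ↔ (1 : ℝ) * (y ⬝ᵥ y) + (-2 * c) * y 2 + (c ^ 2 - ρ ^ 2) = 0 := by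
  rw [dot_self3]
  unfold Ysp
  rw [mem_ofPred_eq]
  constructor <;> intro h <;> linarith

theorem pf_USP (h1 : T_UCK) (h2 : T_UIN) (h3 : T_UBD) (h4 : T_UCV) (h5 : T_BDF) (h6 : T_BPC)
    (h7 : T_DNI) : T_USP := by
  intro D c ρ hρ hY
  have hr := D.cmc.r_pos
  have hcirc : ∀ b ∈ D.bd, D.x b ∈ circ D.r := fun b hb => D.cmc.circle.mapsTo hb
  -- the radius
  have hrad : ρ ^ 2 = D.r ^ 2 + c ^ 2 := by
    obtain ⟨b, hb⟩ := (h6 D).1
    obtain ⟨e1, e2⟩ := hcirc b hb
    have e3 := hY b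
    unfold Ysp at e3
    rw [mem_ofPred_eq, e1] at e3
    rw [dot_self3, e1] at e2
    linarith
  -- the interior points
  have hint : ∀ q ∈ D.int, Loc D (Ysp c ρ) q := by
    intro q hq
    have hne : ∀ p, (2 * (1 : ℝ)) • D.x p + (-2 * c) • e3 ≠ 0 := by
      intro p h0
      have g0 := congrFun h0 0
      have g1 := congrFun h0 1
      have g2 := congrFun h0 2
      simp only [Pi.add_apply, Pi.smul_apply, smul_eq_mul, e3, Matrix.cons_val_zero,
        Matrix.cons_val_one, Matrix.cons_val, Pi.zero_apply] at g0 g1 g2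
      have e0 : D.x p 0 = 0 := by linarith
      have e1 : D.x p 1 = 0 := by linarith
      have e2 : D.x p 2 = c := by linarith
      have e3 := hY p
      unfold Ysp at e3
      rw [mem_ofPred_eq, e0, e1, e2] at e3
      have : ρ ^ 2 = 0 := by linarith
      exact hρ.ne' (pow_eq_zero_iff (two_ne_zero) |>.1 this)
    obtain ⟨U, hU, hqU, hinj, hop⟩ := h2 D 1 (-2 * c) (c ^ 2 - ρ ^ 2)
      (fun p => eq_of_sphere.1 (hY p)) hne q hq
    refine ⟨U, hU, hqU, fun p _ => hY p, hinj, fun V hV hVo => ?_⟩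
    obtain ⟨G, hG, hGe⟩ := hop V hV hVo
    refine ⟨G, hG, ?_⟩
    rw [hGe]
    congr 1
    ext y
    exact eq_of_sphere.symm
  -- the height
  have hSx : D.Sm D.x := D.cmc.x_smooth
  have hSd : D.Sm (fun p => D.x p 2) := by
    have : ContDiff ℝ ∞ (fun y : V3 => y 2) := by fun_prop
    exact this.contMDiff.comp hSx
  have hd0 : ∀ p ∈ D.bd, D.x p 2 = 0 := fun p hp => (hcirc p hp).1
  have hdd : ∀ p ∈ D.bd, dd (fun p => D.x p 2) p 0 ≠ 0 ∨ dd (fun p => D.x p 2) p 1 ≠ 0 := by
    intro p hp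
    by_contra hcon
    rw [not_or, not_not, not_not] at hcon
    obtain ⟨k0, k1⟩ := hcon
    have hm : MD D.x p := Dat.Sm.md D hSx p
    rw [dd_coord hm] at k0 k1
    have hder : ∀ i, D.x p 0 * dd D.x p i 0 + D.x p 1 * dd D.x p i 1 +
        (D.x p 2 - c) * dd D.x p i 2 = 0 := by
      intro i
      have e : (fun q => (D.x q 0 * D.x q 0 + D.x q 1 * D.x q 1) +
          (D.x q 2 * D.x q 2 + (-2 * c) * D.x q 2)) = fun _ => ρ ^ 2 - c ^ 2 := by
        funext q
        have := hY q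
        unfold Ysp at this
        rw [mem_ofPred_eq] at this
        linarith
      have e2 := congrArg (fun f => dd f p i) e
      rw [dd_const, dd_add ((hm.coord 0).mul (hm.coord 0) |>.add ((hm.coord 1).mul (hm.coord 1)))
        (((hm.coord 2).mul (hm.coord 2)).add ((md_const (-2 * c) p).mul (hm.coord 2))),
        dd_add ((hm.coord 0).mul (hm.coord 0)) ((hm.coord 1).mul (hm.coord 1)),
        dd_add ((hm.coord 2).mul (hm.coord 2)) ((md_const (-2 * c) p).mul (hm.coord 2)),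
        dd_mul (hm.coord 0) (hm.coord 0), dd_mul (hm.coord 1) (hm.coord 1),
        dd_mul (hm.coord 2) (hm.coord 2), dd_const_mul (hm.coord 2),
        dd_coord hm, dd_coord hm, dd_coord hm] at e2
      linarith
    have l0 := hder 0
    have l1 := hder 1
    rw [k0, mul_zero, add_zero] at l0
    rw [k1, mul_zero, add_zero] at l1
    have hne := D.cmc.imm p
    have hdet : dd D.x p 0 0 * dd D.x p 1 1 - dd D.x p 0 1 * dd D.x p 1 0 ≠ 0 := by
      intro h0
      apply hne
      rw [cross_apply, k0, k1]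
      ext j
      fin_cases j
      · simp
      · simp
      · simpa using h0
    have x0 : D.x p 0 = 0 := by
      have : D.x p 0 * (dd D.x p 0 0 * dd D.x p 1 1 - dd D.x p 0 1 * dd D.x p 1 0) = 0 := by
        linear_combination dd D.x p 1 1 * l0 - dd D.x p 0 1 * l1
      rcases mul_eq_zero.1 this with h | h
      · exact h
      · exact absurd h hdet
    have x1 : D.x p 1 = 0 := by
      have : D.x p 1 * (dd D.x p 0 0 * dd D.x p 1 1 - dd D.x p 0 1 * dd D.x p 1 0) = 0 := by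
        linear_combination -dd D.x p 1 0 * l0 + dd D.x p 0 0 * l1
      rcases mul_eq_zero.1 this with h | h
      · exact h
      · exact absurd h hdet
    obtain ⟨e1, e2⟩ := hcirc p hp
    rw [dot_self3, e1, x0, x1] at e2
    have : D.r ^ 2 = 0 := by linarith
    exact hr.ne' (pow_eq_zero_iff (two_ne_zero) |>.1 this)
  have hside := fun p hp => h5 D (fun p => D.x p 2) hSd hd0 p hp (hdd p hp)
  -- the same side along the boundary
  let P : Set D.S := {p | ∀ᶠ q in 𝓝 p, q ∈ D.int → 0 < D.x q 2}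
  let M : Set D.S := {p | ∀ᶠ q in 𝓝 p, q ∈ D.int → D.x q 2 < 0}
  have hPo : IsOpen P := isOpen_iff_mem_nhds.2 fun p hp => eventually_eventually_nhds.2 hp
  have hMo : IsOpen M := isOpen_iff_mem_nhds.2 fun p hp => eventually_eventually_nhds.2 hp
  have hPM : ∀ p, p ∈ P → p ∈ M → False := by
    intro p hp hm
    have hd : Dense D.int := h7 D
    obtain ⟨q, hq1, hq2⟩ := mem_closure_iff_nhds.1 (hd p) _ (hp.and hm)
    exact lt_irrefl _ ((hq1.1 hq2).trans (hq1.2 hq2))
  have hσ : ∃ σ : ℝ, (σ = 1 ∨ σ = -1) ∧ ∀ b ∈ D.bd, ∀ᶠ q in 𝓝 b, q ∈ D.int →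
      0 < σ * D.x q 2 := by
    by_cases hb : (D.bd ∩ P).Nonempty
    · refine ⟨1, Or.inl rfl, fun b hbb => ?_⟩
      have hbP : b ∈ P := by
        by_contra hbn
        have hbM : b ∈ M := by
          rcases hside b hbb with h | h
          · exact absurd h hbn
          · exact h
        obtain ⟨z, -, hz1, hz2⟩ := (h6 D).2.2.1 P M hPo hMo (fun z hz => hside z hz) hb
          ⟨b, hbb, hbM⟩
        exact hPM z hz1 hz2
      have hbP' : ∀ᶠ q in 𝓝 b, q ∈ D.int → 0 < D.x q 2 := hbP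
      filter_upwards [hbP'] with q hq hqi
      rw [one_mul]
      exact hq hqi
    · refine ⟨-1, Or.inr rfl, fun b hbb => ?_⟩
      rcases hside b hbb with h | h
      · exact absurd ⟨b, hbb, h⟩ hb
      · filter_upwards [h] with q hq hqi
        have := hq hqi
        linarith
  obtain ⟨σ, hσ1, hσ2⟩ := hσ
  have hK := h1 D.r c ρ σ hr hρ hrad hσ1
  have hbd : ∀ b ∈ D.bd, ∀ᶠ q in 𝓝 b, q ∈ D.int → D.x q ∈ Kca c ρ σ \ circ D.r := by
    intro b hb
    filter_upwards [hσ2 b hb] with q hq hqi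
    have hpos := hq hqi
    refine ⟨⟨hY q, hpos.le⟩, fun hc => ?_⟩
    rw [hc.1, mul_zero] at hpos
    exact lt_irrefl _ hpos
  have hL := h3 D (Ysp c ρ) (Kca c ρ σ) hK hint hbd
  obtain ⟨hinj, hran⟩ := h4 D (Ysp c ρ) (Kca c ρ σ) hK hY hint hL
  refine ⟨hinj, ?_⟩
  rcases hσ1 with h | h
  · rw [h] at hran
    exact Or.inl hran
  · rw [h] at hran
    exact Or.inr hran

end Pool.Agent.H38.CM
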